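import Mathlib

/-! # The disc, the square and Moebius maps -/

set_option autoImplicit false

open Filter Topology
open scoped ENNReal

namespace Pool.Agent.H132HC.Dc

/-- the closed unit disc -/
def D : Type := {z : ℂ // ‖z‖ ≤ 1}

noncomputable instance : TopologicalSpace D := inferInstanceAs (TopologicalSpace {z : ℂ // ‖z‖ ≤ 1})
instance : T2Space D := inferInstanceAs (T2Space {z : ℂ // ‖z‖ ≤ 1})
instance : CompactSpace D := by
  have h : IsCompact {z : ℂ | ‖z‖ ≤ 1} := by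
    have : {z : ℂ | ‖z‖ ≤ 1} = Metric.closedBall 0 1 := by
      ext z; simp
    rw [this]
    exact isCompact_closedBall 0 1
  exact isCompact_iff_compactSpace.1 h

/-- the sup norm -/
noncomputable def N (z : ℂ) : ℝ := max |z.re| |z.im|

theorem N_nonneg (z : ℂ) : 0 ≤ N z := (abs_nonneg _).trans (le_max_left _ _)

theorem N_cont : Continuous N := by
  unfold N
  exact (Complex.continuous_re.abs).max (Complex.continuous_im.abs)

theorem N_smul (c : ℝ) (hc : 0 ≤ c) (z : ℂ) : N (c • z) = c * N z := by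
  simp only [N, Complex.smul_re, Complex.smul_im, smul_eq_mul, abs_mul, abs_of_nonneg hc]
  rw [mul_max_of_nonneg _ _ hc]

theorem norm_le_two_N (z : ℂ) : ‖z‖ ≤ 2 * N z := by
  have h1 := Complex.norm_le_abs_re_add_abs_im z
  have h2 : |z.re| ≤ N z := le_max_left _ _
  have h3 : |z.im| ≤ N z := le_max_right _ _
  linarith

theorem N_le_norm (z : ℂ) : N z ≤ ‖z‖ := max_le (Complex.abs_re_le_norm z) (Complex.abs_im_le_norm z)

theorem N_pos {z : ℂ} (hz : z ≠ 0) : 0 < N z := by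
  have h1 := norm_le_two_N z
  have h2 := norm_pos_iff.2 hz
  linarith

/-- from the disc to the square -/
noncomputable def f (z : ℂ) : ℂ := (‖z‖ / N z) • z

/-- from the square to the disc -/
noncomputable def g (z : ℂ) : ℂ := (N z / ‖z‖) • z

theorem f_zero : f 0 = 0 := by simp [f]
theorem g_zero : g 0 = 0 := by simp [g]

theorem N_f (z : ℂ) : N (f z) = ‖z‖ := by
  by_cases hz : z = 0
  · simp [hz, f_zero, N]
  · rw [f, N_smul _ (div_nonneg (norm_nonneg _) (N_nonneg _))]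
    field_simp [(N_pos hz).ne']

theorem norm_g (z : ℂ) : ‖g z‖ = N z := by
  by_cases hz : z = 0
  · simp [hz, g_zero, N]
  · rw [g, norm_smul, Real.norm_of_nonneg (div_nonneg (N_nonneg _) (norm_nonneg _))]
    field_simp [(norm_pos_iff.2 hz).ne']

theorem g_f (z : ℂ) : g (f z) = z := by
  by_cases hz : z = 0
  · simp [hz, f_zero, g_zero]
  · have h1 := (N_pos hz).ne'
    have h2 := (norm_pos_iff.2 hz).ne'
    rw [g, N_f]
    have h3 : ‖f z‖ = ‖z‖ / N z * ‖z‖ := by
      rw [f, norm_smul, Real.norm_of_nonneg (div_nonneg (norm_nonneg _) (N_nonneg _))]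
    rw [h3, f, smul_smul]
    have : ‖z‖ / (‖z‖ / N z * ‖z‖) * (‖z‖ / N z) = 1 := by field_simp
    rw [this, one_smul]

theorem f_g (z : ℂ) : f (g z) = z := by
  by_cases hz : z = 0
  · simp [hz, f_zero, g_zero]
  · have h1 := (N_pos hz).ne'
    have h2 := (norm_pos_iff.2 hz).ne'
    rw [f, norm_g]
    have h3 : N (g z) = N z / ‖z‖ * N z := by
      rw [g, N_smul _ (div_nonneg (N_nonneg _) (norm_nonneg _))]
    rw [h3, g, smul_smul]
    have : N z / (N z / ‖z‖ * N z) * (N z / ‖z‖) = 1 := by field_simp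
    rw [this, one_smul]

theorem norm_f_le (z : ℂ) : ‖f z‖ ≤ 2 * ‖z‖ := by
  rw [← N_f z]
  exact norm_le_two_N _

theorem f_cont : Continuous f := by
  rw [continuous_iff_continuousAt]
  intro z
  by_cases hz : z = 0
  · subst hz
    rw [ContinuousAt, f_zero, tendsto_zero_iff_norm_tendsto_zero]
    have h1 : Tendsto (fun z : ℂ => 2 * ‖z‖) (𝓝 0) (𝓝 0) := by
      have : Continuous fun z : ℂ => 2 * ‖z‖ := by fun_prop
      have h := this.tendsto 0
      simpa using h
    exact squeeze_zero (fun z => norm_nonneg _) norm_f_le h1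
  · unfold f
    exact ((continuous_norm.continuousAt).div N_cont.continuousAt (N_pos hz).ne').smul continuousAt_id

theorem f_real (r : ℝ) (hr : 0 ≤ r) : f (r : ℂ) = r := by
  by_cases h : r = 0
  · simp [h, f_zero]
  · have h1 : N (r : ℂ) = r := by simp [N, abs_of_nonneg hr, hr]
    have h2 : ‖(r : ℂ)‖ = r := by simp [abs_of_nonneg hr]
    rw [f, h1, h2, div_self h, one_smul]

abbrev I : Type := Set.Icc (0 : ℝ) 1

theorem N_le_iff (z : ℂ) (c : ℝ) : N z ≤ c ↔ |z.re| ≤ c ∧ |z.im| ≤ c := max_le_iff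

/-- the disc is homeomorphic to the square -/
noncomputable def sqEquiv : D ≃ I × I where
  toFun z := (⟨(1 - (f z.1).re) / 2, by
      have h := (N_le_iff (f z.1) 1).1 (by rw [N_f]; exact z.2)
      have h1 := abs_le.1 h.1
      constructor <;> linarith⟩, ⟨(1 + (f z.1).im) / 2, by
      have h := (N_le_iff (f z.1) 1).1 (by rw [N_f]; exact z.2)
      have h1 := abs_le.1 h.2
      constructor <;> linarith⟩)
  invFun w := ⟨g ⟨1 - 2 * (w.1 : ℝ), 2 * (w.2 : ℝ) - 1⟩, by
    rw [norm_g, N_le_iff, abs_le, abs_le]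
    have h1 := w.1.2
    have h2 := w.2.2
    simp only [Set.mem_Icc] at h1 h2
    refine ⟨⟨?_, ?_⟩, ⟨?_, ?_⟩⟩ <;> dsimp only <;> linarith⟩
  left_inv z := by
    apply Subtype.ext
    dsimp only
    have : (⟨1 - 2 * ((1 - (f z.1).re) / 2), 2 * ((1 + (f z.1).im) / 2) - 1⟩ : ℂ) = f z.1 := by
      apply Complex.ext <;> dsimp only <;> ring
    rw [this, g_f]
  right_inv w := by
    dsimp only
    refine Prod.ext (Subtype.ext ?_) (Subtype.ext ?_)
    · dsimp only
      rw [f_g]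
      ring
    · dsimp only
      rw [f_g]
      ring

theorem sqEquiv_cont : Continuous sqEquiv := by
  have h : Continuous fun z : D => f z.1 := f_cont.comp continuous_subtype_val
  refine Continuous.prodMk ?_ ?_
  · refine Continuous.subtype_mk ?_ _
    exact (continuous_const.sub (Complex.continuous_re.comp h)).div_const 2
  · refine Continuous.subtype_mk ?_ _
    exact (continuous_const.add (Complex.continuous_im.comp h)).div_const 2

noncomputable def sq : D ≃ₜ I × I := Continuous.homeoOfEquivCompactToT2 (f := sqEquiv) sqEquiv_cont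

/-- the disc is homeomorphic to the square of `[0, ∞]` -/
noncomputable def Ψ : D ≃ₜ ℝ≥0∞ × ℝ≥0∞ :=
  sq.trans (Homeomorph.prodCongr ENNReal.orderIsoUnitIntervalBirational.symm.toHomeomorph
    ENNReal.orderIsoUnitIntervalBirational.symm.toHomeomorph)

theorem iso1 : ((ENNReal.orderIsoUnitIntervalBirational 1 : I) : ℝ) = 1 / 2 := by
  rw [ENNReal.orderIsoUnitIntervalBirational_apply_coe, inv_one]
  norm_num

theorem iso4 : ((ENNReal.orderIsoUnitIntervalBirational 4 : I) : ℝ) = 4 / 5 := by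
  rw [ENNReal.orderIsoUnitIntervalBirational_apply_coe, ENNReal.toReal_inv,
    ENNReal.toReal_add (by simp) (by simp), ENNReal.toReal_inv]
  norm_num

/-- the point of the disc on the real axis -/
noncomputable def re (r : I) : D := ⟨((r : ℝ) : ℂ), by
  rw [Complex.norm_real, Real.norm_of_nonneg r.2.1]; exact r.2.2⟩

theorem Ψ_real (r : I) : (Ψ (re r)).1 ≤ 1 ∧ (Ψ (re r)).2 = 1 := by
  have h0 : f (re r).1 = ((r : ℝ) : ℂ) := f_real _ r.2.1
  constructor
  · change ENNReal.orderIsoUnitIntervalBirational.symm (sq (re r)).1 ≤ 1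
    rw [OrderIso.symm_apply_le, ← Subtype.coe_le_coe, iso1]
    change (1 - (f (re r).1).re) / 2 ≤ 1 / 2
    rw [h0, Complex.ofReal_re]
    have := r.2.1
    linarith
  · change ENNReal.orderIsoUnitIntervalBirational.symm (sq (re r)).2 = 1
    rw [OrderIso.symm_apply_eq]
    apply Subtype.ext
    rw [iso1]
    change (1 + (f (re r).1).im) / 2 = 1 / 2
    rw [h0, Complex.ofReal_im]
    norm_num

theorem Ψ_small (z : D) (h1 : 1 ≤ (Ψ z).1) (h2 : (Ψ z).1 ≤ 4) (h3 : 1 ≤ (Ψ z).2)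
    (h4 : (Ψ z).2 ≤ 4) : ‖z.1‖ ≤ 3 / 5 := by
  change 1 ≤ ENNReal.orderIsoUnitIntervalBirational.symm (sq z).1 at h1
  change ENNReal.orderIsoUnitIntervalBirational.symm (sq z).1 ≤ 4 at h2
  change 1 ≤ ENNReal.orderIsoUnitIntervalBirational.symm (sq z).2 at h3
  change ENNReal.orderIsoUnitIntervalBirational.symm (sq z).2 ≤ 4 at h4
  rw [OrderIso.le_symm_apply, ← Subtype.coe_le_coe, iso1] at h1 h3
  rw [OrderIso.symm_apply_le, ← Subtype.coe_le_coe, iso4] at h2 h4
  change 1 / 2 ≤ (1 - (f z.1).re) / 2 at h1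
  change (1 - (f z.1).re) / 2 ≤ 4 / 5 at h2
  change 1 / 2 ≤ (1 + (f z.1).im) / 2 at h3
  change (1 + (f z.1).im) / 2 ≤ 4 / 5 at h4
  rw [← N_f, N_le_iff, abs_le, abs_le]
  refine ⟨⟨?_, ?_⟩, ⟨?_, ?_⟩⟩ <;> linarith

/-! ### rotations -/

/-- rotation of the disc -/
noncomputable def rot (θ : UnitAddCircle) (z : D) : D :=
  ⟨(AddCircle.toCircle θ : ℂ) * z.1, by rw [norm_mul, Circle.norm_coe, one_mul]; exact z.2⟩

theorem rot_cont : Continuous fun p : UnitAddCircle × D => rot p.1 p.2 := by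
  refine Continuous.subtype_mk ?_ _
  exact (((continuous_subtype_val : Continuous ((↑) : Circle → ℂ)).comp AddCircle.continuous_toCircle).comp continuous_fst).mul
    (continuous_subtype_val.comp continuous_snd)

theorem rot_zero (z : D) : rot 0 z = z := by
  apply Subtype.ext
  simp [rot]

theorem rot_add (s t : UnitAddCircle) (z : D) : rot (s + t) z = rot s (rot t z) := by
  apply Subtype.ext
  simp [rot, AddCircle.toCircle_add, mul_assoc]

theorem exists_rot (z w : D) (h : ‖z.1‖ = ‖w.1‖) : ∃ θ, rot θ z = w := by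
  by_cases hz : z.1 = 0
  · refine ⟨0, ?_⟩
    rw [rot_zero]
    apply Subtype.ext
    rw [hz, norm_zero] at h
    rw [hz]
    exact (norm_eq_zero.1 h.symm).symm
  · have hz' : ‖z.1‖ ≠ 0 := norm_ne_zero_iff.2 hz
    obtain ⟨θ, hθ⟩ := (AddCircle.homeomorphCircle (T := 1) one_ne_zero).surjective
      ⟨w.1 / z.1, by
        change w.1 / z.1 ∈ Metric.sphere (0 : ℂ) 1
        rw [mem_sphere_zero_iff_norm, norm_div, ← h, div_self hz']⟩
    refine ⟨θ, Subtype.ext ?_⟩
    rw [AddCircle.homeomorphCircle_apply] at hθ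
    change (AddCircle.toCircle θ : ℂ) * z.1 = w.1
    rw [hθ]
    exact div_mul_cancel₀ _ hz

/-! ### the Moebius map -/

theorem mob_norm (a : ℝ) (ha : |a| < 1) (z : ℂ) (hz : ‖z‖ ≤ 1) : 1 + a * z ≠ 0 ∧ ‖(z + a) / (1 + a * z)‖ ≤ 1 := by
  have h0 : 1 + (a : ℂ) * z ≠ 0 := by
    intro h
    have h1 : (a : ℂ) * z = -1 := by linear_combination h
    have h2 : ‖(a : ℂ) * z‖ = 1 := by rw [h1]; simp
    rw [norm_mul, Complex.norm_real, Real.norm_eq_abs] at h2
    have := norm_nonneg z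
    nlinarith [abs_nonneg a]
  refine ⟨h0, ?_⟩
  rw [norm_div, div_le_one (norm_pos_iff.2 h0)]
  apply le_of_sq_le_sq _ (norm_nonneg _)
  rw [← Complex.normSq_eq_norm_sq, ← Complex.normSq_eq_norm_sq, Complex.normSq_apply,
    Complex.normSq_apply]
  have h3 : z.re * z.re + z.im * z.im ≤ 1 := by
    have : ‖z‖ ^ 2 ≤ 1 := by have := norm_nonneg z; nlinarith
    rwa [← Complex.normSq_eq_norm_sq, Complex.normSq_apply] at this
  have h4 : a ^ 2 < 1 := (sq_lt_one_iff_abs_lt_one a).2 ha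
  simp only [Complex.add_re, Complex.add_im, Complex.ofReal_re, Complex.ofReal_im, Complex.mul_re,
    Complex.mul_im, Complex.one_re, Complex.one_im]
  nlinarith

/-- the Moebius map of the disc -/
noncomputable def mob (a : ℝ) (ha : |a| < 1) (z : D) : D :=
  ⟨(z.1 + a) / (1 + a * z.1), (mob_norm a ha z.1 z.2).2⟩

theorem mob_cont (a : ℝ) (ha : |a| < 1) : Continuous (mob a ha) := by
  refine Continuous.subtype_mk ?_ _
  refine Continuous.div ?_ ?_ fun z => (mob_norm a ha z.1 z.2).1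
  · exact continuous_subtype_val.add continuous_const
  · exact continuous_const.add (continuous_const.mul continuous_subtype_val)

theorem mob_inv_aux (a z : ℂ) (h0 : 1 + a * z ≠ 0) (h1 : 1 - a ^ 2 ≠ 0) :
    ((z + a) / (1 + a * z) + (-a)) / (1 + (-a) * ((z + a) / (1 + a * z))) = z := by
  have e1 : (z + a) / (1 + a * z) + (-a) = ((1 - a ^ 2) * z) / (1 + a * z) := by
    rw [div_add' _ _ _ h0]
    congr 1
    ring
  have e2 : 1 + (-a) * ((z + a) / (1 + a * z)) = (1 - a ^ 2) / (1 + a * z) := by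
    rw [mul_div_assoc', add_div' _ _ _ h0]
    congr 1
    ring
  rw [e1, e2, div_div_div_cancel_right₀ h0, mul_div_cancel_left₀ _ h1]

theorem mob_inv (a : ℝ) (ha : |a| < 1) (ha' : |-a| < 1) (z : D) : mob (-a) ha' (mob a ha z) = z := by
  apply Subtype.ext
  change ((z.1 + a) / (1 + a * z.1) + ((-a : ℝ) : ℂ)) / (1 + ((-a : ℝ) : ℂ) * ((z.1 + a) / (1 + a * z.1))) = z.1
  have h0 := (mob_norm a ha z.1 z.2).1
  have h1 : (1 : ℂ) - a ^ 2 ≠ 0 := by
    have h4 : a ^ 2 < 1 := (sq_lt_one_iff_abs_lt_one a).2 ha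
    have : (1 : ℝ) - a ^ 2 ≠ 0 := by linarith
    exact_mod_cast this
  rw [Complex.ofReal_neg]
  exact mob_inv_aux a z.1 h0 h1

theorem ha : |(1 / 2 : ℝ)| < 1 := by rw [abs_of_pos] <;> norm_num
theorem ha' : |-(1 / 2 : ℝ)| < 1 := by rw [abs_neg]; exact ha

noncomputable def M : D ≃ₜ D where
  toFun := mob (1 / 2) ha
  invFun := mob (-(1 / 2)) ha'
  left_inv z := mob_inv _ _ _ z
  right_inv z := by
    have h := mob_inv (-(1 / 2)) ha' (by rw [neg_neg]; exact ha) z
    convert h using 2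
    all_goals norm_num
  continuous_toFun := mob_cont _ _
  continuous_invFun := mob_cont _ _

/-- the centre -/
noncomputable def o : D := ⟨0, by simp⟩

theorem cover (w : D) (hw : ‖w.1‖ ≤ 3 / 5) : ∃ s t : UnitAddCircle, rot s (M (rot t (M.symm o))) = w := by
  have hc : Continuous fun t : UnitAddCircle => ‖(M (rot t (M.symm o))).1‖ := by
    refine continuous_norm.comp (continuous_subtype_val.comp (M.continuous.comp ?_))
    exact rot_cont.comp (Continuous.prodMk continuous_id continuous_const)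
  have e0 : (M.symm o).1 = -(1 / 2 : ℂ) := by
    change ((0 : ℂ) + ((-(1 / 2) : ℝ) : ℂ)) / (1 + ((-(1 / 2) : ℝ) : ℂ) * 0) = _
    push_cast
    norm_num
  have h0 : ‖(M (rot 0 (M.symm o))).1‖ = 0 := by
    rw [rot_zero, M.apply_symm_apply]
    simp [o]
  obtain ⟨t1, ht1⟩ := exists_rot (M.symm o) ⟨(1 / 2 : ℂ), by norm_num⟩ (by rw [e0]; norm_num)
  have h1 : ‖(M (rot t1 (M.symm o))).1‖ = 4 / 5 := by
    rw [ht1]
    change ‖((1 / 2 : ℂ) + ((1 / 2 : ℝ) : ℂ)) / (1 + ((1 / 2 : ℝ) : ℂ) * (1 / 2 : ℂ))‖ = _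
    have : ((1 / 2 : ℂ) + ((1 / 2 : ℝ) : ℂ)) / (1 + ((1 / 2 : ℝ) : ℂ) * (1 / 2 : ℂ)) = ((4 / 5 : ℝ) : ℂ) := by
      push_cast
      norm_num
    rw [this, Complex.norm_real]
    norm_num
  obtain ⟨t, ht⟩ := mem_range_of_exists_le_of_exists_ge hc (c := ‖w.1‖)
    ⟨0, by rw [h0]; exact norm_nonneg _⟩ ⟨t1, by rw [h1]; linarith⟩
  obtain ⟨s, hs⟩ := exists_rot (M (rot t (M.symm o))) w ht
  exact ⟨s, t, hs⟩

end Pool.Agent.H132HC.Dc
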