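import Mathlib

/-! # Three compact connected groups with a transitive product and Haar null sets

Let `R 0`, `R 1`, `R 2` be continuous actions of compact connected abelian groups on a compact metric space `X`, such that
the set `(R 0) (R 1) (R 2) y` is the whole space for one point `y`. Then the law of the product of three independent
random elements gives small measure to all the two-sided translates of the small balls. -/

set_option autoImplicit false

open MeasureTheory Filter Topology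
open scoped ENNReal

namespace Pool.Agent.H132HC

variable {X : Type} [MetricSpace X] [CompactSpace X]

/-- The homeomorphism of a bijective continuous self-map. -/
noncomputable def homeo (f : C(X, X)) (hf : Function.Bijective f) : X ≃ₜ X :=
  Continuous.homeoOfEquivCompactToT2 (f := Equiv.ofBijective f hf) f.continuous

/-- A continuous length function on a connected group with a large value is small only on a set of
small measure. -/
theorem small_measure {K L : Type} [AddCommGroup K] [TopologicalSpace K] [PreconnectedSpace K]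
    [AddCommGroup L] [MeasurableSpace L] [MeasurableAdd L] (ν : Measure L) [IsProbabilityMeasure ν]
    [ν.IsAddLeftInvariant] (ι : K → L)
    (F : K → ℝ) (hF : Continuous F) (hF0 : F 0 = 0)
    (hsub : ∀ s t, |F s - F t| ≤ F (s - t)) (ρ : ℝ) (hρ : 0 < ρ) (hbig : ∃ s, ρ ≤ F s)
    (m : ℕ) (hm : 0 < m) (T : Set L) (hT : MeasurableSet T)
    (hTT : ∀ l : L, ∀ s t : K, ι s + l ∈ T → ι t + l ∈ T → F (s - t) ≤ 2 * (ρ / (3 * m))) :
    (m : ℝ≥0∞) * ν T ≤ 1 := by
  obtain ⟨s₁, hs₁⟩ := hbig
  have hm0 : (0 : ℝ) < m := by exact_mod_cast hm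
  have hex : ∀ j : ℕ, ∃ s, j < m → F s = j * (ρ / m) := by
    intro j
    by_cases hj : j < m
    · have h1 : (j : ℝ) * (ρ / m) ∈ Set.Icc (F 0) (F s₁) := by
        rw [hF0]
        have hj' : (j : ℝ) ≤ m := by exact_mod_cast hj.le
        refine ⟨by positivity, le_trans ?_ hs₁⟩
        rw [← mul_div_assoc, div_le_iff₀ hm0, mul_comm ρ]
        exact mul_le_mul_of_nonneg_right hj' hρ.le
      obtain ⟨s, hs⟩ := mem_range_of_exists_le_of_exists_ge hF ⟨0, h1.1⟩ ⟨s₁, h1.2⟩
      exact ⟨s, fun _ => hs⟩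
    · exact ⟨0, fun h => absurd h hj⟩
  choose σ hσ using hex
  have hdisj : Pairwise (Function.onFun Disjoint fun j : Fin m => (fun s => ι (σ j) + s) ⁻¹' T) := by
    intro i j hij
    rw [Function.onFun, Set.disjoint_left]
    intro s hs hs'
    have h1 := hTT s _ _ hs hs'
    have h3 := hsub (σ i) (σ j)
    rw [hσ i i.2, hσ j j.2, ← sub_mul, abs_mul] at h3
    have h4 : (1 : ℝ) ≤ |((i : ℕ) : ℝ) - ((j : ℕ) : ℝ)| := by
      have hne : ((i : ℕ) : ℤ) - ((j : ℕ) : ℤ) ≠ 0 := by
        intro h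
        apply hij
        ext
        omega
      have h5 : (1 : ℤ) ≤ |((i : ℕ) : ℤ) - ((j : ℕ) : ℤ)| := Int.one_le_abs hne
      have h6 : ((1 : ℤ) : ℝ) ≤ ((|((i : ℕ) : ℤ) - ((j : ℕ) : ℤ)| : ℤ) : ℝ) := by exact_mod_cast h5
      rw [Int.cast_abs] at h6
      push_cast at h6
      exact h6
    have h5 : 0 < ρ / m := by positivity
    rw [abs_of_pos h5] at h3
    have h6 : ρ / m ≤ |((i : ℕ) : ℝ) - ((j : ℕ) : ℝ)| * (ρ / m) := by nlinarith
    have h7 : 2 * (ρ / (3 * m)) < ρ / m := by
      have : ρ / (3 * m) = (ρ / m) / 3 := by field_simp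
      rw [this]
      linarith
    linarith
  have hmeas : ∀ j : Fin m, MeasurableSet ((fun s => ι (σ j) + s) ⁻¹' T) := fun j =>
    (measurable_const_add _) hT
  have hvol : ∀ j : Fin m, ν ((fun s => ι (σ j) + s) ⁻¹' T) = ν T := fun j =>
    measure_preimage_add _ _ _
  calc (m : ℝ≥0∞) * ν T = ∑ j : Fin m, ν ((fun s => ι (σ j) + s) ⁻¹' T) := by
        simp [hvol]
    _ = ν (⋃ j : Fin m, (fun s => ι (σ j) + s) ⁻¹' T) := by
        rw [measure_iUnion hdisj hmeas, tsum_fintype]
    _ ≤ ν (Set.univ : Set L) := measure_mono (Set.subset_univ _)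
    _ = 1 := measure_univ

/-- The second half: from small balls with small translates to the decomposition. -/
theorem decompose_of_key (G : Set C(X, X)) [MeasurableSpace G] [BorelSpace G] (μ : Measure G)
    (key : ∀ k : ℕ, 0 < k → ∃ η : ℝ, 0 < η ∧ ∀ (f₀ : C(X, X)) (g h : G),
      (k : ℝ≥0∞) * μ {x : G | ∃ b : G, dist (b : C(X, X)) f₀ < η ∧
        (x : C(X, X)) = (g : C(X, X)).comp ((b : C(X, X)).comp (h : C(X, X)))} ≤ 1) :
    ∃ N : Set G, IsMeagre Nᶜ ∧ MeasurableSet N ∧ ∀ g h : G,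
        μ {x : G | ∃ b ∈ N, (x : C(X, X)) = (g : C(X, X)).comp ((b : C(X, X)).comp (h : C(X, X)))}
          = 0 := by
  obtain ⟨b, hbc, hbne, hb⟩ := TopologicalSpace.exists_countable_basis G
  obtain ⟨e, he⟩ : ∃ e : ℕ → Set G, b ⊆ Set.range e := by
    rcases b.eq_empty_or_nonempty with hbe | hbe
    · exact ⟨fun _ => ∅, by rw [hbe]; exact Set.empty_subset _⟩
    · obtain ⟨e, he⟩ := hbc.exists_eq_range hbe
      exact ⟨e, he.le⟩
  obtain ⟨ε, hε, hεs⟩ := ENNReal.exists_pos_sum_of_countable (ε := 1) one_ne_zero ℕ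
  have hU : ∀ k n : ℕ, ∃ U : Set G, IsOpen U ∧ (IsOpen (e n) → (e n).Nonempty → (U ∩ e n).Nonempty) ∧
      ∀ g h : G, μ {x : G | ∃ b ∈ U,
        (x : C(X, X)) = (g : C(X, X)).comp ((b : C(X, X)).comp (h : C(X, X)))} ≤
          (ε n : ℝ≥0∞) / (k + 1) := by
    intro k n
    by_cases hn : IsOpen (e n) ∧ (e n).Nonempty
    · obtain ⟨ho, f₀, hf₀⟩ := hn
      have hpos : (0 : ℝ≥0∞) < (ε n : ℝ≥0∞) / (k + 1) := by
        refine ENNReal.div_pos ?_ ?_
        · exact (ENNReal.coe_pos.2 (hε n)).ne'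
        · exact ENNReal.add_ne_top.2 ⟨ENNReal.natCast_ne_top k, ENNReal.one_ne_top⟩
      obtain ⟨K, hK⟩ := ENNReal.exists_inv_nat_lt hpos.ne'
      have hK0 : 0 < K := by
        rcases Nat.eq_zero_or_pos K with h | h
        · rw [h] at hK
          simp at hK
        · exact h
      obtain ⟨η, hη, hkey⟩ := key K hK0
      refine ⟨{b : G | dist (b : C(X, X)) (f₀ : C(X, X)) < η}, ?_, ?_, ?_⟩
      · exact isOpen_lt (continuous_subtype_val.dist continuous_const) continuous_const
      · intro _ _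
        refine ⟨f₀, ?_, hf₀⟩
        change dist (f₀ : C(X, X)) (f₀ : C(X, X)) < η
        rw [dist_self]
        exact hη
      · intro g h
        have h1 := hkey (f₀ : C(X, X)) g h
        have h2 : μ {x : G | ∃ b : G, dist (b : C(X, X)) (f₀ : C(X, X)) < η ∧
            (x : C(X, X)) = (g : C(X, X)).comp ((b : C(X, X)).comp (h : C(X, X)))} ≤ (K : ℝ≥0∞)⁻¹ := by
          rw [ENNReal.le_inv_iff_mul_le, mul_comm]
          exact h1
        exact h2.trans hK.le
    · refine ⟨∅, isOpen_empty, fun h1 h2 => absurd ⟨h1, h2⟩ hn, fun g h => ?_⟩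
      have : {x : G | ∃ b ∈ (∅ : Set G),
        (x : C(X, X)) = (g : C(X, X)).comp ((b : C(X, X)).comp (h : C(X, X)))} = ∅ := by
        ext x
        simp
      rw [this]
      simp
  choose U hUo hUn hUμ using hU
  set N : Set G := ⋂ k, ⋃ n, U k n with hN
  have hopen : ∀ k, IsOpen (⋃ n, U k n) := fun k => isOpen_iUnion fun n => hUo k n
  have hdense : ∀ k, Dense (⋃ n, U k n) := by
    intro k
    rw [hb.dense_iff]
    intro o ho hone
    obtain ⟨n, hn⟩ := he ho
    obtain ⟨x, hx1, hx2⟩ := hUn k n (by rw [hn]; exact hb.isOpen ho) (by rw [hn]; exact hone)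
    rw [hn] at hx2
    exact ⟨x, hx2, Set.mem_iUnion.2 ⟨n, hx1⟩⟩
  refine ⟨N, ?_, ?_, ?_⟩
  · rw [IsMeagre, compl_compl, hN]
    rw [countable_iInter_mem]
    intro k
    exact residual_of_dense_open (hopen k) (hdense k)
  · exact MeasurableSet.iInter fun k => (hopen k).measurableSet
  · intro g h
    have hle : ∀ k : ℕ, μ {x : G | ∃ b ∈ N,
        (x : C(X, X)) = (g : C(X, X)).comp ((b : C(X, X)).comp (h : C(X, X)))} ≤ 1 / ((k : ℝ≥0∞) + 1) := by
      intro k
      have hsub : {x : G | ∃ b ∈ N,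
          (x : C(X, X)) = (g : C(X, X)).comp ((b : C(X, X)).comp (h : C(X, X)))} ⊆
          ⋃ n, {x : G | ∃ b ∈ U k n,
            (x : C(X, X)) = (g : C(X, X)).comp ((b : C(X, X)).comp (h : C(X, X)))} := by
        rintro x ⟨b, hb, hx⟩
        obtain ⟨n, hn⟩ := Set.mem_iUnion.1 (Set.mem_iInter.1 hb k)
        exact Set.mem_iUnion.2 ⟨n, b, hn, hx⟩
      refine (measure_mono hsub).trans ((measure_iUnion_le _).trans ?_)
      refine (ENNReal.tsum_le_tsum fun n => hUμ k n g h).trans ?_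
      simp_rw [div_eq_mul_inv]
      rw [ENNReal.tsum_mul_right]
      exact mul_le_mul_left hεs.le _
    refine le_antisymm ?_ bot_le
    refine ge_of_tendsto' (f := fun k : ℕ => 1 / ((k : ℝ≥0∞) + 1)) (x := atTop) ?_ hle
    have h1 : Tendsto (fun k : ℕ => ((k : ℝ≥0∞))⁻¹) atTop (𝓝 0) := ENNReal.tendsto_inv_nat_nhds_zero
    have h2 := h1.comp (tendsto_add_atTop_nat 1)
    refine h2.congr fun k => ?_
    simp

end Pool.Agent.H132HC
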