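import Pool.Agent.H132HC.Haar

/-! # Three actions with a transitive product: the key estimate -/

set_option autoImplicit false

open MeasureTheory Filter Topology
open scoped ENNReal

namespace Pool.Agent.H132HC

/-- A continuous action of an additive group on a space. -/
structure Act (K X : Type) [AddCommGroup K] [TopologicalSpace K] [TopologicalSpace X] where
  R : K → C(X, X)
  cont : Continuous R
  zero : R 0 = ContinuousMap.id X
  add : ∀ s t, R (s + t) = (R s).comp (R t)

section Top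
variable {X : Type} [TopologicalSpace X] {K : Type} [AddCommGroup K] [TopologicalSpace K]

theorem Act.add_apply (A : Act K X) (s t : K) (x : X) : A.R (s + t) x = A.R s (A.R t x) := by
  rw [A.add]; rfl

theorem Act.zero_apply (A : Act K X) (x : X) : A.R 0 x = x := by rw [A.zero]; rfl

theorem Act.neg_apply (A : Act K X) (s : K) (x : X) : A.R s (A.R (-s) x) = x := by
  rw [← A.add_apply, add_neg_cancel, A.zero_apply]

theorem Act.neg_apply' (A : Act K X) (s : K) (x : X) : A.R (-s) (A.R s x) = x := by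
  rw [← A.add_apply, neg_add_cancel, A.zero_apply]

theorem Act.bij (A : Act K X) (s : K) : Function.Bijective (A.R s) :=
  Function.bijective_iff_has_inverse.2 ⟨A.R (-s), A.neg_apply' s, A.neg_apply s⟩

end Top

variable {X : Type} [MetricSpace X] [CompactSpace X]

variable {K : Type} [AddCommGroup K] [TopologicalSpace K]

/-- the displacement, measured after applying `g` -/
noncomputable def len (A : Act K X) (g : C(X, X)) (s : K) : ℝ := dist (g.comp (A.R s)) g

theorem len_cont (A : Act K X) (g : C(X, X)) : Continuous (len A g) :=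
  Continuous.dist ((ContinuousMap.continuous_postcomp _).comp A.cont) continuous_const

theorem len_zero (A : Act K X) (g : C(X, X)) : len A g 0 = 0 := by
  simp [len, A.zero]

theorem len_apply (A : Act K X) (g : C(X, X)) (s : K) (x : X) :
    dist (g (A.R s x)) (g x) ≤ len A g s :=
  ContinuousMap.dist_apply_le_dist (f := g.comp (A.R s)) (g := g) x

theorem len_sub (A : Act K X) (g : C(X, X)) (s t : K) :
    |len A g s - len A g t| ≤ len A g (s - t) := by
  have h : dist (g.comp (A.R s)) (g.comp (A.R t)) ≤ dist (g.comp (A.R (s - t))) g := by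
    rw [ContinuousMap.dist_le dist_nonneg]
    intro q
    have h1 : A.R s = (A.R (s - t)).comp (A.R t) := by rw [← A.add, sub_add_cancel]
    rw [h1]
    exact len_apply A g (s - t) (A.R t q)
  exact (abs_dist_sub_le _ _ _).trans h

theorem conclude (A : Act K X) (g : C(X, X)) (B S : X → X) (hS : Function.Surjective S) (P c : ℝ)
    (hc : 0 ≤ c + 2 * P)
    (hB : ∀ w, dist (g (B w)) (g w) ≤ P) (s t : K)
    (h : ∀ z, dist (g (B (A.R s (S z)))) (g (B (A.R t (S z)))) ≤ c) : len A g (s - t) ≤ c + 2 * P := by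
  rw [len, ContinuousMap.dist_le hc]
  intro x
  obtain ⟨z, hz⟩ := hS (A.R (-t) x)
  have e1 : A.R (s - t) x = A.R s (S z) := by rw [hz, ← A.add_apply, sub_eq_add_neg]
  have e2 : x = A.R t (S z) := by rw [hz, A.neg_apply]
  change dist (g (A.R (s - t) x)) (g x) ≤ _
  rw [e1]
  conv_lhs => rw [e2]
  have h1 := h z
  have h2 := hB (A.R s (S z))
  have h3 := hB (A.R t (S z))
  have h4 := dist_triangle4 (g (A.R s (S z))) (g (B (A.R s (S z)))) (g (B (A.R t (S z)))) (g (A.R t (S z)))
  rw [dist_comm (g (A.R s (S z))) (g (B (A.R s (S z))))] at h4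
  linarith

/-- the product of three elements -/
noncomputable def RR (A : Fin 3 → Act K X) (l : Fin 3 → K) : C(X, X) :=
  ((A 0).R (l 0)).comp (((A 1).R (l 1)).comp ((A 2).R (l 2)))

theorem RR_cont (A : Fin 3 → Act K X) : Continuous (RR A) := by
  unfold RR
  have h0 : Continuous fun l : Fin 3 → K => (A 0).R (l 0) := (A 0).cont.comp (continuous_apply 0)
  have h1 : Continuous fun l : Fin 3 → K => (A 1).R (l 1) := (A 1).cont.comp (continuous_apply 1)
  have h2 : Continuous fun l : Fin 3 → K => (A 2).R (l 2) := (A 2).cont.comp (continuous_apply 2)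
  exact h0.compCM (h1.compCM h2)

theorem key3 [IsTopologicalAddGroup K] [CompactSpace K] [PreconnectedSpace K]
    [SecondCountableTopology K] [MeasurableSpace K] [BorelSpace K]
    (G : Set C(X, X)) (hG : ∀ f ∈ G, Function.Bijective f) [MeasurableSpace G] [BorelSpace G]
    (A : Fin 3 → Act K X) (hAG : ∀ l : Fin 3 → K, RR A l ∈ G) (y : X)
    (hy : ∀ x, ∃ l : Fin 3 → K, x = RR A l y) (p q : X) (hpq : p ≠ q) :
    ∃ μ : Measure G, IsProbabilityMeasure μ ∧ ∀ k : ℕ, 0 < k → ∃ η : ℝ, 0 < η ∧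
      ∀ (f₀ : C(X, X)) (g h : G),
      (k : ℝ≥0∞) * μ {x : G | ∃ b : G, dist (b : C(X, X)) f₀ < η ∧
        (x : C(X, X)) = (g : C(X, X)).comp ((b : C(X, X)).comp (h : C(X, X)))} ≤ 1 := by
  classical
  set ν : Measure (Fin 3 → K) := Measure.addHaarMeasure ⊤ with hν
  have hνp : IsProbabilityMeasure ν := ⟨Measure.addHaarMeasure_self⟩
  set ι : (Fin 3 → K) → G := fun l => ⟨RR A l, hAG l⟩ with hι
  have hιc : Continuous ι := (RR_cont A).subtype_mk _
  refine ⟨Measure.map ι ν, Measure.isProbabilityMeasure_map hιc.aemeasurable, fun m hm => ?_⟩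
  have hm0 : (0 : ℝ) < m := by exact_mod_cast hm
  have hm1 : (1 : ℝ) ≤ m := by exact_mod_cast hm
  have hD : 0 < dist p q := dist_pos.2 hpq
  obtain ⟨ρ₂, hρ₂⟩ : ∃ ρ, ρ = dist p q / 6 := ⟨_, rfl⟩
  obtain ⟨ρ₁, hρ₁⟩ : ∃ ρ, ρ = ρ₂ / (12 * m) := ⟨_, rfl⟩
  obtain ⟨ρ₀, hρ₀⟩ : ∃ ρ, ρ = ρ₁ / (12 * m) := ⟨_, rfl⟩
  obtain ⟨η, hη⟩ : ∃ η, η = ρ₀ / (6 * m) := ⟨_, rfl⟩
  have p2 : 0 < ρ₂ := by rw [hρ₂]; positivity
  have p1 : 0 < ρ₁ := by rw [hρ₁]; positivity
  have p0 : 0 < ρ₀ := by rw [hρ₀]; positivity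
  have pη : 0 < η := by rw [hη]; positivity
  have e2 : ρ₂ = ρ₁ * (12 * m) := by rw [hρ₁]; field_simp
  have e1 : ρ₁ = ρ₀ * (12 * m) := by rw [hρ₀]; field_simp
  have e0 : ρ₀ = η * (6 * m) := by rw [hη]; field_simp
  have l01 : ρ₀ ≤ ρ₁ := by rw [e1]; nlinarith
  have l12 : ρ₁ ≤ ρ₂ := by rw [e2]; nlinarith
  refine ⟨η, pη, fun f₀ g h => ?_⟩
  set g' := (homeo (g : C(X, X)) (hG _ g.2)).symm with hg'
  set h' := (homeo (h : C(X, X)) (hG _ h.2)).symm with hh'
  have hgg : ∀ x, g' ((g : C(X, X)) x) = x := fun x => (homeo _ _).symm_apply_apply x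
  have hhh : ∀ x, (h : C(X, X)) (h' x) = x := fun x => (homeo _ _).apply_symm_apply x
  set V : Set G := {x : G | dist (((g' : C(X, X)).comp (x : C(X, X))).comp (h' : C(X, X))) f₀ ≤ η}
    with hV
  have hVc : IsClosed V := by
    refine isClosed_le ?_ continuous_const
    refine Continuous.dist ?_ continuous_const
    exact (ContinuousMap.continuous_precomp _).comp
      ((ContinuousMap.continuous_postcomp _).comp continuous_subtype_val)
  have hsub : {x : G | ∃ b : G, dist (b : C(X, X)) f₀ < η ∧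
      (x : C(X, X)) = (g : C(X, X)).comp ((b : C(X, X)).comp (h : C(X, X)))} ⊆ V := by
    rintro x ⟨b, hb, hx⟩
    change dist (((g' : C(X, X)).comp (x : C(X, X))).comp (h' : C(X, X))) f₀ ≤ η
    have : ((g' : C(X, X)).comp (x : C(X, X))).comp (h' : C(X, X)) = (b : C(X, X)) := by
      ext z
      rw [hx]
      change g' ((g : C(X, X)) ((b : C(X, X)) ((h : C(X, X)) (h' z)))) = _
      rw [hgg, hhh]
    rw [this]
    exact hb.le
  refine (mul_le_mul_right (measure_mono hsub) _).trans ?_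
  rw [Measure.map_apply hιc.measurable hVc.measurableSet]
  have hTm : MeasurableSet (ι ⁻¹' V) := hιc.measurable hVc.measurableSet
  set γ : C(X, X) := (g' : C(X, X)) with hγ
  -- two elements of the preimage
  have htwo : ∀ l l' : Fin 3 → K, l ∈ ι ⁻¹' V → l' ∈ ι ⁻¹' V →
      ∀ z, dist (γ (RR A l z)) (γ (RR A l' z)) ≤ 2 * η := by
    intro l l' hl hl' z
    have h1 : dist ((γ.comp (RR A l)).comp (h' : C(X, X))) f₀ ≤ η := hl
    have h2 : dist ((γ.comp (RR A l')).comp (h' : C(X, X))) f₀ ≤ η := hl'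
    have h3 : dist ((γ.comp (RR A l)).comp (h' : C(X, X))) ((γ.comp (RR A l')).comp (h' : C(X, X)))
        ≤ 2 * η := (dist_triangle_right _ _ f₀).trans (by linarith)
    have h4 := ContinuousMap.dist_apply_le_dist (f := (γ.comp (RR A l)).comp (h' : C(X, X)))
      (g := (γ.comp (RR A l')).comp (h' : C(X, X))) (h'.symm z)
    change dist (γ (RR A l (h' (h'.symm z)))) (γ (RR A l' (h' (h'.symm z)))) ≤ _ at h4
    rw [h'.apply_symm_apply] at h4
    exact h4.trans h3
  by_cases c0 : ∃ s, ρ₀ ≤ len (A 0) γ s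
  · refine small_measure ν (fun s : K => (Pi.single 0 s : Fin 3 → K)) (len (A 0) γ) (len_cont _ _)
      (len_zero _ _) (len_sub _ _) ρ₀ p0 c0 m hm _ hTm ?_
    intro l s t hs ht
    have h1 := htwo _ _ hs ht
    have h2 := conclude (A 0) γ id (fun z => (A 0).R (l 0) ((A 1).R (l 1) ((A 2).R (l 2) z)))
      (((A 0).bij (l 0)).2.comp (((A 1).bij (l 1)).2.comp ((A 2).bij (l 2)).2)) 0 (2 * η)
      (by linarith) (fun w => by simp) s t (fun z => by
        have h3 := h1 z
        have e : ∀ s : K, RR A ((Pi.single 0 s : Fin 3 → K) + l) z =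
            (A 0).R s ((A 0).R (l 0) ((A 1).R (l 1) ((A 2).R (l 2) z))) := by
          intro s
          rw [← (A 0).add_apply]
          simp [RR]
        rw [e, e] at h3
        exact h3)
    have h4 : 2 * (ρ₀ / (3 * m)) = 4 * η := by rw [e0]; field_simp; ring
    rw [h4]
    linarith
  push Not at c0
  have d0 : ∀ s w, dist (γ ((A 0).R s w)) (γ w) ≤ ρ₀ := fun s w =>
    (len_apply (A 0) γ s w).trans (c0 s).le
  by_cases c1 : ∃ s, ρ₁ ≤ len (A 1) γ s
  · refine small_measure ν (fun s : K => (Pi.single 1 s : Fin 3 → K)) (len (A 1) γ) (len_cont _ _)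
      (len_zero _ _) (len_sub _ _) ρ₁ p1 c1 m hm _ hTm ?_
    intro l s t hs ht
    have h1 := htwo _ _ hs ht
    have h2 := conclude (A 1) γ ((A 0).R (l 0)) (fun z => (A 1).R (l 1) ((A 2).R (l 2) z))
      (((A 1).bij (l 1)).2.comp ((A 2).bij (l 2)).2) ρ₀ (2 * η)
      (by linarith) (fun w => d0 _ w) s t (fun z => by
        have h3 := h1 z
        have e : ∀ s : K, RR A ((Pi.single 1 s : Fin 3 → K) + l) z =
            (A 0).R (l 0) ((A 1).R s ((A 1).R (l 1) ((A 2).R (l 2) z))) := by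
          intro s
          rw [← (A 1).add_apply]
          simp [RR]
        rw [e, e] at h3
        exact h3)
    have h4 : 2 * (ρ₁ / (3 * m)) = 8 * ρ₀ := by rw [e1]; field_simp; ring
    have h5 : η ≤ ρ₀ := by rw [e0]; nlinarith
    rw [h4]
    linarith
  push Not at c1
  have d1 : ∀ s w, dist (γ ((A 1).R s w)) (γ w) ≤ ρ₁ := fun s w =>
    (len_apply (A 1) γ s w).trans (c1 s).le
  have c2 : ∃ s, ρ₂ ≤ len (A 2) γ s := by
    by_contra c2
    push Not at c2
    have d2 : ∀ s w, dist (γ ((A 2).R s w)) (γ w) ≤ len (A 2) γ s := fun s w => len_apply (A 2) γ s w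
    have h1 : ∀ x, dist (γ x) (γ y) < 3 * ρ₂ := by
      intro x
      obtain ⟨l, hl⟩ := hy x
      have e : x = (A 0).R (l 0) ((A 1).R (l 1) ((A 2).R (l 2) y)) := hl
      have f0 := d0 (l 0) ((A 1).R (l 1) ((A 2).R (l 2) y))
      have f1 := d1 (l 1) ((A 2).R (l 2) y)
      have f2 := d2 (l 2) y
      rw [← e] at f0
      have f3 := dist_triangle4 (γ x) (γ ((A 1).R (l 1) ((A 2).R (l 2) y)))
        (γ ((A 2).R (l 2) y)) (γ y)
      have f4 := c2 (l 2)
      linarith
    have h2 := h1 (g'.symm p)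
    have h3 := h1 (g'.symm q)
    have h4 : γ (g'.symm p) = p := g'.apply_symm_apply p
    have h5 : γ (g'.symm q) = q := g'.apply_symm_apply q
    rw [h4] at h2
    rw [h5] at h3
    have h6 := dist_triangle_right p q (γ y)
    linarith
  refine small_measure ν (fun s : K => (Pi.single 2 s : Fin 3 → K)) (len (A 2) γ) (len_cont _ _)
    (len_zero _ _) (len_sub _ _) ρ₂ p2 c2 m hm _ hTm ?_
  intro l s t hs ht
  have h1 := htwo _ _ hs ht
  have h2 := conclude (A 2) γ (fun w => (A 0).R (l 0) ((A 1).R (l 1) w)) (fun z => (A 2).R (l 2) z)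
    ((A 2).bij (l 2)).2 (ρ₀ + ρ₁) (2 * η)
    (by linarith) (fun w => by
      have f0 := d0 (l 0) ((A 1).R (l 1) w)
      have f1 := d1 (l 1) w
      have f3 := dist_triangle (γ ((A 0).R (l 0) ((A 1).R (l 1) w))) (γ ((A 1).R (l 1) w)) (γ w)
      linarith) s t (fun z => by
      have h3 := h1 z
      have e : ∀ s : K, RR A ((Pi.single 2 s : Fin 3 → K) + l) z =
          (A 0).R (l 0) ((A 1).R (l 1) ((A 2).R s ((A 2).R (l 2) z))) := by
        intro s
        rw [← (A 2).add_apply]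
        simp [RR]
      rw [e, e] at h3
      exact h3)
  have h4 : 2 * (ρ₂ / (3 * m)) = 8 * ρ₁ := by rw [e2]; field_simp; ring
  have h5 : η ≤ ρ₀ := by rw [e0]; nlinarith
  rw [h4]
  linarith

end Pool.Agent.H132HC
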