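import Mathlib

/-! # A homeomorphism of the Hilbert cube moving an arc off the boundary

The state `s` and the input `x` in `[0, ∞]` are transformed into the output `O s x` and the new state `2 (T s x)`. -/

set_option autoImplicit false

open Filter Topology
open scoped ENNReal

namespace Pool.Agent.H132HC.Sw

/-- the new state (up to the factor two) -/
noncomputable def T (s x : ℝ≥0∞) : ℝ≥0∞ := max (min s x) (x - 2)

/-- the output -/
noncomputable def O (s x : ℝ≥0∞) : ℝ≥0∞ := s + min 2 ((s + 2) - x)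

theorem T_cont : Continuous fun p : ℝ≥0∞ × ℝ≥0∞ => T p.1 p.2 := by
  unfold T
  refine (continuous_fst.min continuous_snd).max ?_
  exact (ENNReal.continuous_sub_right 2).comp continuous_snd

theorem O_cont : Continuous fun p : ℝ≥0∞ × ℝ≥0∞ => O p.1 p.2 := by
  unfold O
  rw [continuous_iff_continuousAt]
  rintro ⟨s, x⟩
  by_cases hs : s = ∞
  · subst hs
    have h1 : Tendsto (fun p : ℝ≥0∞ × ℝ≥0∞ => p.1) (𝓝 (∞, x)) (𝓝 ∞) :=
      continuous_fst.tendsto' _ _ rfl
    have h2 : (∞ : ℝ≥0∞) + min 2 ((∞ + 2) - x) = ∞ := by simp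
    change Tendsto _ _ (𝓝 ((∞ : ℝ≥0∞) + min 2 ((∞ + 2) - x)))
    rw [h2]
    exact tendsto_nhds_top_mono' h1 fun p => le_self_add
  · have h1 : Tendsto (fun p : ℝ≥0∞ × ℝ≥0∞ => p.1) (𝓝 (s, x)) (𝓝 s) :=
      continuous_fst.tendsto' _ _ rfl
    have h2 : Tendsto (fun p : ℝ≥0∞ × ℝ≥0∞ => p.2) (𝓝 (s, x)) (𝓝 x) :=
      continuous_snd.tendsto' _ _ rfl
    have h3 : Tendsto (fun p : ℝ≥0∞ × ℝ≥0∞ => p.1 + 2) (𝓝 (s, x)) (𝓝 (s + 2)) :=
      h1.add tendsto_const_nhds
    have h4 : Tendsto (fun p : ℝ≥0∞ × ℝ≥0∞ => (p.1 + 2) - p.2) (𝓝 (s, x)) (𝓝 ((s + 2) - x)) :=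
      ENNReal.Tendsto.sub h3 h2 (Or.inl (by simp [hs]))
    exact h1.add (tendsto_const_nhds.min h4)

theorem two_ne_top : (2 : ℝ≥0∞) ≠ ∞ := by norm_num

theorem cases3 (s x : ℝ≥0∞) : x ≤ s ∨ (s ≠ ∞ ∧ s + 2 ≤ x) ∨ (s ≠ ∞ ∧ x ≠ ∞ ∧ s ≤ x ∧ x ≤ s + 2) := by
  rcases le_total x s with h | h
  · exact Or.inl h
  · by_cases hs : s = ∞
    · left; rw [hs]; exact le_top
    · rcases le_total (s + 2) x with h2 | h2
      · exact Or.inr (Or.inl ⟨hs, h2⟩)
      · refine Or.inr (Or.inr ⟨hs, ?_, h, h2⟩)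
        exact (h2.trans_lt (by simp [lt_top_iff_ne_top, hs])).ne

theorem val1 {s x : ℝ≥0∞} (h : x ≤ s) : T s x = x ∧ O s x = s + 2 := by
  constructor
  · unfold T
    rw [min_eq_right h, max_eq_left tsub_le_self]
  · unfold O
    by_cases hs : s = ∞
    · rw [hs]; simp
    · have hx : x ≠ ∞ := (h.trans_lt (lt_top_iff_ne_top.2 hs)).ne
      have : (2 : ℝ≥0∞) ≤ s + 2 - x := by
        rw [ENNReal.le_sub_iff_add_le_left hx (h.trans le_self_add)]
        gcongr
      rw [min_eq_left this]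

theorem val2 {s x : ℝ≥0∞} (hs : s ≠ ∞) (h : s + 2 ≤ x) : T s x = x - 2 ∧ O s x = s := by
  have h1 : s ≤ x - 2 := by
    have := tsub_le_tsub_right h 2
    rwa [ENNReal.add_sub_cancel_right two_ne_top] at this
  constructor
  · unfold T
    rw [min_eq_left (le_self_add.trans h), max_eq_right h1]
  · unfold O
    rw [tsub_eq_zero_of_le h]
    simp

theorem val3 {s x : ℝ≥0∞} (hs : s ≠ ∞) (hx : x ≠ ∞) (h : s ≤ x) (h2 : x ≤ s + 2) :
    T s x = s ∧ O s x = s + ((s + 2) - x) := by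
  have h1 : x - 2 ≤ s := tsub_le_iff_right.2 h2
  constructor
  · unfold T
    rw [min_eq_left h, max_eq_left h1]
  · unfold O
    rw [min_eq_right]
    rw [tsub_le_iff_right, add_comm]
    gcongr

theorem ident (s x : ℝ≥0∞) : T (T s x) (O s x) = s ∧ O (T s x) (O s x) = x := by
  rcases cases3 s x with h | ⟨hs, h⟩ | ⟨hs, hx, h, h2⟩
  · obtain ⟨e1, e2⟩ := val1 h
    rw [e1, e2]
    by_cases hx : x = ∞
    · have hs : s = ∞ := by rw [hx] at h; exact top_le_iff.1 h
      rw [hx, hs]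
      have := val1 (le_refl (∞ : ℝ≥0∞))
      simpa using this
    · obtain ⟨f1, f2⟩ := val2 (x := s + 2) hx (by gcongr)
      rw [f1, f2, ENNReal.add_sub_cancel_right two_ne_top]
      exact ⟨rfl, rfl⟩
  · obtain ⟨e1, e2⟩ := val2 hs h
    rw [e1, e2]
    have h1 : s ≤ x - 2 := by
      have := tsub_le_tsub_right h 2
      rwa [ENNReal.add_sub_cancel_right two_ne_top] at this
    obtain ⟨f1, f2⟩ := val1 h1
    rw [f1, f2]
    exact ⟨rfl, tsub_add_cancel_of_le (le_add_self.trans h)⟩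
  · obtain ⟨e1, e2⟩ := val3 hs hx h h2
    rw [e1, e2]
    have key : s + 2 - x ≤ 2 := by
      rw [tsub_le_iff_right, add_comm]
      gcongr
    have hfin : s + 2 - x ≠ ∞ := (key.trans_lt (by norm_num)).ne
    obtain ⟨f1, f2⟩ := val3 (s := s) (x := s + (s + 2 - x)) hs (by simp [hs, hfin]) le_self_add
      (by gcongr)
    rw [f1, f2]
    refine ⟨rfl, ?_⟩
    lift s to NNReal using hs
    lift x to NNReal using hx
    have h' : s ≤ x := by exact_mod_cast h
    obtain ⟨d, rfl⟩ := exists_add_of_le h'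
    have h2' : s + d ≤ s + 2 := by exact_mod_cast h2
    have hd : d ≤ 2 := by simpa using h2'
    norm_cast
    rw [add_tsub_add_eq_tsub_left, add_tsub_add_eq_tsub_left, tsub_tsub_cancel_of_le hd]

theorem T_le (t o : ℝ≥0∞) : T t o ≤ o := max_le (min_le_right _ _) tsub_le_self

theorem le_T (t o : ℝ≥0∞) : o ≤ T t o + 2 :=
  le_tsub_add.trans (by unfold T; gcongr; exact le_max_right _ _)

theorem T_lip (a b e o : ℝ≥0∞) (h : a ≤ b + e) : T a o ≤ T b o + e := by
  unfold T
  refine max_le ?_ ((le_max_right _ _).trans le_self_add)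
  have h1 : min a o ≤ min b o + e := by
    rcases le_total b o with hb | hb
    · rw [min_eq_left hb]
      exact (min_le_left _ _).trans h
    · rw [min_eq_right hb]
      exact (min_le_right _ _).trans le_self_add
  refine h1.trans ?_
  gcongr
  exact le_max_left _ _

/-- the states -/
noncomputable def st (s : ℝ≥0∞) (x : ℕ → ℝ≥0∞) : ℕ → ℝ≥0∞
  | 0 => s
  | n + 1 => 2 * T (st s x n) (x n)

/-- the swindle -/
noncomputable def p (z : ℝ≥0∞ × (ℕ → ℝ≥0∞)) : ℕ → ℝ≥0∞ := fun n => O (st z.1 z.2 n) (z.2 n)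

theorem st_cont (n : ℕ) : Continuous fun z : ℝ≥0∞ × (ℕ → ℝ≥0∞) => st z.1 z.2 n := by
  induction n with
  | zero => exact continuous_fst
  | succ n ih =>
    change Continuous fun z : ℝ≥0∞ × (ℕ → ℝ≥0∞) => 2 * T (st z.1 z.2 n) (z.2 n)
    refine (ENNReal.continuous_const_mul two_ne_top).comp ?_
    exact T_cont.comp (ih.prodMk ((continuous_apply n).comp continuous_snd))

theorem p_cont : Continuous p := by
  refine continuous_pi fun n => ?_
  exact O_cont.comp ((st_cont n).prodMk ((continuous_apply n).comp continuous_snd))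

theorem half_two (a : ℝ≥0∞) : 2 * a / 2 = a := by
  rw [mul_comm, mul_div_assoc, ENNReal.div_self (by norm_num) two_ne_top, mul_one]

theorem two_half (a : ℝ≥0∞) : 2 * (a / 2) = a := by
  rw [← mul_div_assoc, half_two]

theorem back (z : ℝ≥0∞ × (ℕ → ℝ≥0∞)) (n : ℕ) :
    st z.1 z.2 n = T (st z.1 z.2 (n + 1) / 2) (p z n) ∧ z.2 n = O (st z.1 z.2 (n + 1) / 2) (p z n) := by
  have e : st z.1 z.2 (n + 1) / 2 = T (st z.1 z.2 n) (z.2 n) := half_two _
  rw [e]
  have := ident (st z.1 z.2 n) (z.2 n)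
  exact ⟨this.1.symm, this.2.symm⟩

theorem state_le (s s' o : ℕ → ℝ≥0∞) (h : ∀ n, s n = T (s (n + 1) / 2) (o n))
    (h' : ∀ n, s' n = T (s' (n + 1) / 2) (o n)) (n : ℕ) : s n ≤ s' n := by
  have key : ∀ k n : ℕ, s n ≤ s' n + 2 * (2⁻¹) ^ k := by
    intro k
    induction k with
    | zero =>
      intro n
      rw [pow_zero, mul_one, h n, h' n]
      exact (T_le _ _).trans (le_T _ _)
    | succ k ih =>
      intro n
      rw [h n, h' n]
      apply T_lip
      have h1 := ENNReal.div_le_div_right (ih (n + 1)) 2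
      refine h1.trans (le_of_eq ?_)
      rw [ENNReal.add_div]
      congr 1
      rw [pow_succ, div_eq_mul_inv, mul_assoc]
  have h1 : Tendsto (fun k : ℕ => s' n + 2 * (2⁻¹ : ℝ≥0∞) ^ k) atTop (𝓝 (s' n + 2 * 0)) := by
    refine tendsto_const_nhds.add ?_
    refine ENNReal.Tendsto.const_mul ?_ (Or.inr two_ne_top)
    exact ENNReal.tendsto_pow_atTop_nhds_zero_of_lt_one (by norm_num)
  have h2 := ge_of_tendsto' h1 (fun k => key k n)
  simpa using h2

theorem p_inj : Function.Injective p := by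
  intro z z' h
  have h1 : ∀ n, st z.1 z.2 n = st z'.1 z'.2 n := by
    intro n
    refine le_antisymm (state_le _ _ (p z) (fun n => (back z n).1) (fun n => ?_) n)
      (state_le _ _ (p z) (fun n => ?_) (fun n => (back z n).1) n)
    · rw [h]; exact (back z' n).1
    · rw [h]; exact (back z' n).1
  refine Prod.ext (h1 0) (funext fun n => ?_)
  rw [(back z n).2, (back z' n).2, h, h1]

theorem p_surj : Function.Surjective p := by
  intro o
  -- the sequences of states
  have hne : ∀ N : ℕ, ∀ o : ℕ → ℝ≥0∞, ∃ s : ℕ → ℝ≥0∞, ∀ n < N, s n = T (s (n + 1) / 2) (o n) := by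
    intro N
    induction N with
    | zero => exact fun o => ⟨fun _ => 0, fun n hn => absurd hn (by omega)⟩
    | succ N ih =>
      intro o
      obtain ⟨s, hs⟩ := ih (fun n => o (n + 1))
      refine ⟨fun n => Nat.casesOn n (T (s 0 / 2) (o 0)) s, fun n hn => ?_⟩
      cases n with
      | zero => rfl
      | succ n => exact hs n (by omega)
  set C : ℕ → Set (ℕ → ℝ≥0∞) := fun N => {s | ∀ n < N, s n = T (s (n + 1) / 2) (o n)} with hC
  have hcl : ∀ N, IsClosed (C N) := by
    intro N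
    have : C N = ⋂ n, ⋂ (_ : n < N), {s : ℕ → ℝ≥0∞ | s n = T (s (n + 1) / 2) (o n)} := by
      ext s
      simp [hC]
    rw [this]
    refine isClosed_iInter fun n => isClosed_iInter fun _ => isClosed_eq (continuous_apply n) ?_
    refine T_cont.comp (Continuous.prodMk ?_ continuous_const)
    exact (ENNReal.continuous_div_const 2 (by norm_num)).comp (continuous_apply (n + 1))
  obtain ⟨s, hs⟩ := IsCompact.nonempty_iInter_of_sequence_nonempty_isCompact_isClosed C
    (fun N s hs n hn => hs n (by omega)) (fun N => hne N o) (hcl 0).isCompact hcl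
  have hs' : ∀ n, s n = T (s (n + 1) / 2) (o n) := fun n => Set.mem_iInter.1 hs (n + 1) n (by omega)
  refine ⟨(s 0, fun n => O (s (n + 1) / 2) (o n)), ?_⟩
  have hst : ∀ n, st (s 0) (fun n => O (s (n + 1) / 2) (o n)) n = s n := by
    intro n
    induction n with
    | zero => rfl
    | succ n ih =>
      rw [st, ih, hs' n, (ident (s (n + 1) / 2) (o n)).1, two_half]
  funext n
  change O (st (s 0) (fun n => O (s (n + 1) / 2) (o n)) n) (O (s (n + 1) / 2) (o n)) = o n
  rw [hst, hs' n]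
  exact (ident (s (n + 1) / 2) (o n)).2

/-- the swindle as a homeomorphism -/
noncomputable def P : ℝ≥0∞ × (ℕ → ℝ≥0∞) ≃ₜ (ℕ → ℝ≥0∞) :=
  Continuous.homeoOfEquivCompactToT2 (f := Equiv.ofBijective p ⟨p_inj, p_surj⟩) p_cont

theorem P_apply (z : ℝ≥0∞ × (ℕ → ℝ≥0∞)) : P z = p z := rfl

/-- the arc is moved to the interior -/
theorem P_arc (u : ℝ≥0∞) (hu : u ≤ 1) (n : ℕ) : 1 ≤ P (u, fun _ => 1) n ∧ P (u, fun _ => 1) n ≤ 4 := by
  have h : ∀ n, st u (fun _ => 1) n ≤ 2 := by
    intro n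
    cases n with
    | zero => exact hu.trans (by norm_num)
    | succ n =>
      rw [st]
      have : T (st u (fun _ => 1) n) 1 ≤ 1 := T_le _ _
      calc 2 * T (st u (fun _ => 1) n) 1 ≤ 2 * 1 := by gcongr
        _ = 2 := mul_one 2
  rw [P_apply]
  change 1 ≤ O (st u (fun _ => 1) n) 1 ∧ O (st u (fun _ => 1) n) 1 ≤ 4
  have h1 := h n
  unfold O
  constructor
  · have h3 : (1 : ℝ≥0∞) ≤ min 2 (st u (fun _ => 1) n + 2 - 1) := by
      refine le_min (by norm_num) ?_
      rw [ENNReal.le_sub_iff_add_le_left (by norm_num) ((show (1 : ℝ≥0∞) ≤ 2 by norm_num).trans le_add_self)]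
      refine le_trans ?_ le_add_self
      norm_num
    exact h3.trans le_add_self
  · calc st u (fun _ => 1) n + min 2 (st u (fun _ => 1) n + 2 - 1) ≤ 2 + 2 := by
          gcongr
          exact min_le_left _ _
      _ = 4 := by norm_num

end Pool.Agent.H132HC.Sw
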