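import Pool.Agent.H132HC.Key
import Pool.Agent.H132HC.Swindle
import Pool.Agent.H132HC.Disc

/-! # Three torus actions on the Hilbert cube with a transitive product -/

set_option autoImplicit false

open MeasureTheory Filter Topology
open scoped ENNReal

namespace Pool.Agent.H132HC

/-- A homeomorphism of compact spaces from a continuous bijection. -/
noncomputable def mkH {A B : Type} [TopologicalSpace A] [TopologicalSpace B] [CompactSpace A]
    [T2Space B] (e : A ≃ B) (h : Continuous e) : A ≃ₜ B :=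
  Continuous.homeoOfEquivCompactToT2 (f := e) h

/-- conjugation of an action -/
noncomputable def conj {K X X' : Type} [AddCommGroup K] [TopologicalSpace K] [TopologicalSpace X]
    [TopologicalSpace X'] (e : X ≃ₜ X') (A : Act K X') : Act K X where
  R k := (e.symm : C(X', X)).comp ((A.R k).comp (e : C(X, X')))
  cont := (ContinuousMap.continuous_postcomp _).comp
    ((ContinuousMap.continuous_precomp _).comp A.cont)
  zero := by
    ext x
    change e.symm (A.R 0 (e x)) = x
    rw [A.zero_apply, e.symm_apply_apply]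
  add s t := by
    ext x
    change e.symm (A.R (s + t) (e x)) = e.symm (A.R s (e (e.symm (A.R t (e x)))))
    rw [A.add_apply, e.apply_symm_apply]

theorem conj_apply {K X X' : Type} [AddCommGroup K] [TopologicalSpace K] [TopologicalSpace X]
    [TopologicalSpace X'] (e : X ≃ₜ X') (A : Act K X') (k : K) (x : X) :
    (conj e A).R k x = e.symm (A.R k (e x)) := rfl

/-- the infinite torus -/
abbrev Tor : Type := ℕ → UnitAddCircle

/-- the power of the disc -/
abbrev Y : Type := ℕ → Dc.D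

/-- the action by rotations -/
noncomputable def base : Act Tor Y where
  R k := ContinuousMap.curry (⟨fun p : Tor × Y => fun n => Dc.rot (p.1 n) (p.2 n), by
    refine continuous_pi fun n => ?_
    have h1 : Continuous fun p : Tor × Y => p.1 n := (continuous_apply n).comp continuous_fst
    have h2 : Continuous fun p : Tor × Y => p.2 n := (continuous_apply n).comp continuous_snd
    exact Dc.rot_cont.comp (h1.prodMk h2)⟩ : C(Tor × Y, Y)) k
  cont := ContinuousMap.continuous _
  zero := by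
    ext x n
    exact Dc.rot_zero _
  add s t := by
    ext x n
    exact Dc.rot_add _ _ _

theorem base_apply (k : Tor) (x : Y) (n : ℕ) : base.R k x n = Dc.rot (k n) (x n) := rfl

section reindex
variable {A B : Type} [TopologicalSpace A] [TopologicalSpace B] [CompactSpace A] [CompactSpace B]
  [T2Space A] [T2Space B]

noncomputable def H2 : (ℕ → A × B) ≃ₜ (ℕ → A) × (ℕ → B) :=
  mkH (Equiv.arrowProdEquivProdArrow ℕ (fun _ => A) (fun _ => B)) (by
    refine Continuous.prodMk ?_ ?_
    · exact continuous_pi fun n => continuous_fst.comp (continuous_apply n)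
    · exact continuous_pi fun n => continuous_snd.comp (continuous_apply n))

noncomputable def H3 : (ℕ → A) ≃ₜ (ℕ → ℕ → A) :=
  mkH ((Equiv.arrowCongr Nat.pairEquiv.symm (Equiv.refl A)).trans (Equiv.curry ℕ ℕ A)) (by
    refine continuous_pi fun i => continuous_pi fun j => ?_
    exact continuous_apply (Nat.pair i j))

theorem H3_apply (z : ℕ → A) (i j : ℕ) : H3 z i j = z (Nat.pair i j) := rfl

theorem H3_symm_apply (v : ℕ → ℕ → A) (m : ℕ) : H3.symm v m = v m.unpair.1 m.unpair.2 := by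
  have h := H3_apply (H3.symm v) m.unpair.1 m.unpair.2
  rw [H3.apply_symm_apply, Nat.pair_unpair] at h
  exact h.symm

noncomputable def H6 : (ℕ → A) ≃ₜ (ℕ → A × A) :=
  (mkH ((Equiv.arrowCongr Equiv.natSumNatEquivNat.symm (Equiv.refl A)).trans
    (Equiv.sumArrowEquivProdArrow ℕ ℕ A)) (by
      refine Continuous.prodMk ?_ ?_
      · exact continuous_pi fun n => continuous_apply (Equiv.natSumNatEquivNat (Sum.inl n))
      · exact continuous_pi fun n => continuous_apply (Equiv.natSumNatEquivNat (Sum.inr n)))).trans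
    H2.symm

theorem H6_apply (z : ℕ → A) (n : ℕ) : H6 z n =
    (z (Equiv.natSumNatEquivNat (Sum.inl n)), z (Equiv.natSumNatEquivNat (Sum.inr n))) := rfl

end reindex

/-- the map of the infinite product -/
noncomputable def Ψs : Y ≃ₜ (ℕ → ℝ≥0∞ × ℝ≥0∞) := Homeomorph.piCongrRight fun _ => Dc.Ψ

/-- the rows -/
noncomputable def rows : (ℕ → ℝ≥0∞ × ℝ≥0∞) ≃ₜ (ℕ → ℝ≥0∞ × (ℕ → ℝ≥0∞)) :=
  (H2.trans (Homeomorph.prodCongr (Homeomorph.refl _) H3)).trans H2.symm

theorem rows_apply (w : ℕ → ℝ≥0∞ × ℝ≥0∞) (i : ℕ) :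
    rows w i = ((w i).1, fun j => (w (Nat.pair i j)).2) := rfl

/-- the swindle on all the rows -/
noncomputable def PP : Y ≃ₜ Y :=
  ((((Ψs.trans rows).trans (Homeomorph.piCongrRight fun _ => Sw.P)).trans H3.symm).trans H6).trans
    Ψs.symm

theorem PP_small (ρ : ℕ → Dc.I) (n : ℕ) : ‖(PP (fun n => Dc.re (ρ n)) n).1‖ ≤ 3 / 5 := by
  set x : Y := fun n => Dc.re (ρ n) with hx
  set v : ℕ → ℕ → ℝ≥0∞ := fun i => Sw.P (rows (Ψs x) i) with hv
  have hv1 : ∀ i j, 1 ≤ v i j ∧ v i j ≤ 4 := by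
    intro i j
    have e : rows (Ψs x) i = ((Dc.Ψ (Dc.re (ρ i))).1, fun _ => 1) := by
      rw [rows_apply]
      refine Prod.ext rfl (funext fun j => ?_)
      exact (Dc.Ψ_real (ρ (Nat.pair i j))).2
    rw [hv]
    dsimp only
    rw [e]
    exact Sw.P_arc _ (Dc.Ψ_real (ρ i)).1 j
  have hz : ∀ m, 1 ≤ H3.symm v m ∧ H3.symm v m ≤ 4 := by
    intro m
    rw [H3_symm_apply]
    exact hv1 _ _
  have e : Dc.Ψ (PP x n) = H6 (H3.symm v) n := Dc.Ψ.apply_symm_apply _
  rw [H6_apply] at e
  apply Dc.Ψ_small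
  · rw [e]; exact (hz _).1
  · rw [e]; exact (hz _).2
  · rw [e]; exact (hz _).1
  · rw [e]; exact (hz _).2

/-- the Moebius maps -/
noncomputable def CM : Y ≃ₜ Y := Homeomorph.piCongrRight fun _ => Dc.M

/-- the centre -/
noncomputable def oo : Y := fun _ => Dc.o

/-- the three actions -/
noncomputable def A3 : Fin 3 → Act Tor Y := ![base, conj PP base, conj (PP.trans CM.symm) base]

theorem trans3 (x : Y) : ∃ l : Fin 3 → Tor,
    x = (A3 0).R (l 0) ((A3 1).R (l 1) ((A3 2).R (l 2) (PP.symm oo))) := by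
  have hk : ∀ n, ∃ θ, Dc.rot θ (x n) = Dc.re ⟨‖(x n).1‖, norm_nonneg _, (x n).2⟩ := by
    intro n
    refine Dc.exists_rot _ _ ?_
    change _ = ‖((‖(x n).1‖ : ℝ) : ℂ)‖
    rw [Complex.norm_real, norm_norm]
  choose k hk using hk
  set ρ : ℕ → Dc.I := fun n => ⟨‖(x n).1‖, norm_nonneg _, (x n).2⟩ with hρ
  have hc := fun n => Dc.cover (PP (fun n => Dc.re (ρ n)) n) (PP_small ρ n)
  choose s t hst using hc
  refine ⟨![-k, s, t], ?_⟩
  have a0 : A3 0 = base := rfl
  have a1 : A3 1 = conj PP base := rfl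
  have a2 : A3 2 = conj (PP.trans CM.symm) base := rfl
  have b0 : (![-k, s, t] : Fin 3 → Tor) 0 = -k := rfl
  have b1 : (![-k, s, t] : Fin 3 → Tor) 1 = s := rfl
  have b2 : (![-k, s, t] : Fin 3 → Tor) 2 = t := rfl
  rw [a0, a1, a2, b0, b1, b2, conj_apply, conj_apply, Homeomorph.trans_apply,
    Homeomorph.symm_trans_apply, Homeomorph.symm_symm, PP.apply_symm_apply, PP.apply_symm_apply]
  have e1 : base.R s (CM (base.R t (CM.symm oo))) = PP (fun n => Dc.re (ρ n)) := by
    funext n
    exact hst n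
  have e2 : base.R k x = fun n => Dc.re (ρ n) := by
    funext n
    exact hk n
  rw [e1, PP.symm_apply_apply, ← e2, base.neg_apply']

theorem RR_apply {K X : Type} [AddCommGroup K] [TopologicalSpace K] [MetricSpace X] [CompactSpace X]
    (A : Fin 3 → Act K X) (l : Fin 3 → K) (x : X) :
    RR A l x = (A 0).R (l 0) ((A 1).R (l 1) ((A 2).R (l 2) x)) := rfl

theorem RR_bij {K X : Type} [AddCommGroup K] [TopologicalSpace K] [MetricSpace X] [CompactSpace X]
    (A : Fin 3 → Act K X) (l : Fin 3 → K) : Function.Bijective (RR A l) :=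
  ((A 0).bij (l 0)).comp (((A 1).bij (l 1)).comp ((A 2).bij (l 2)))

theorem trans_conj {X : Type} [MetricSpace X] [CompactSpace X] (τ : X ≃ₜ Y) (x : X) :
    ∃ l, x = RR (fun i => conj τ (A3 i)) l (τ.symm (PP.symm oo)) := by
  obtain ⟨l, hl⟩ := trans3 (τ x)
  refine ⟨l, ?_⟩
  rw [RR_apply, conj_apply, conj_apply, conj_apply, τ.apply_symm_apply, τ.apply_symm_apply,
    τ.apply_symm_apply, ← hl, τ.symm_apply_apply]

theorem mainX {X : Type} [MetricSpace X] [CompactSpace X] (τ : X ≃ₜ Y) (p q : X) (hpq : p ≠ q)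
    (G : Set C(X, X)) (hG : ∀ f, f ∈ G ↔ Function.Bijective f) [MeasurableSpace G] [BorelSpace G] :
    ∃ N : Set G, IsMeagre Nᶜ ∧ MeasurableSet N ∧ ∃ μ : Measure G, IsProbabilityMeasure μ ∧
      ∀ g h : G, μ {x : G | ∃ b ∈ N,
        (x : C(X, X)) = (g : C(X, X)).comp ((b : C(X, X)).comp (h : C(X, X)))} = 0 := by
  obtain ⟨μ, hμ, hkey⟩ := key3 G (fun f hf => (hG f).1 hf) (fun i => conj τ (A3 i))
    (fun l => (hG _).2 (RR_bij _ l)) (τ.symm (PP.symm oo)) (trans_conj τ) p q hpq
  obtain ⟨N, h1, h2, h3⟩ := decompose_of_key G μ hkey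
  exact ⟨N, h1, h2, μ, hμ, h3⟩

theorem mainT {X : Type} [inst : TopologicalSpace X] [CompactSpace X]
    [TopologicalSpace.MetrizableSpace X] (τ : X ≃ₜ Y) (p q : X) (hpq : p ≠ q)
    (G : Set C(X, X)) (hG : ∀ f, f ∈ G ↔ Function.Bijective f) [MeasurableSpace G] [BorelSpace G] :
    ∃ N : Set G, IsMeagre Nᶜ ∧ MeasurableSet N ∧ ∃ μ : Measure G, IsProbabilityMeasure μ ∧
      ∀ g h : G, μ {x : G | ∃ b ∈ N,
        (x : C(X, X)) = (g : C(X, X)).comp ((b : C(X, X)).comp (h : C(X, X)))} = 0 := by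
  let m : MetricSpace X := TopologicalSpace.metrizableSpaceMetric X
  exact mainX (X := X) τ p q hpq G hG

/-- the Hilbert cube and the power of the disc -/
noncomputable def τ₀ : (ℕ → Set.Icc (0 : ℝ) 1) ≃ₜ Y :=
  ((Homeomorph.piCongrRight fun _ =>
    ENNReal.orderIsoUnitIntervalBirational.symm.toHomeomorph).trans H6).trans Ψs.symm

end Pool.Agent.H132HC
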